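import Pool.Agent.X119.Cong

/-!
# The conjectured congruences fail, e.g. for `p = 5` and `p = 13`
-/

set_option autoImplicit false

namespace Pool.Agent.Results.MP_cec948_nt.FailsAsStated

open Finset Pool.Agent.X119.Cong

/-- `S_p` -/
def S (p : ℕ) : ℚ := ∑ k ∈ range p, binom (-1 / 4) k * binom (-1 / 2) k / (-3) ^ k

/-- `T_p` -/
def Tp (p : ℕ) : ℚ := ∑ k ∈ range p, binom (-1 / 4) k * binom (-1 / 2) k / 81 ^ k

/-- (a) for the prime `p` -/
def StatementA (p : ℕ) : Prop :=
  p % 4 = 1 → ∃ x y : ℤ, Odd x ∧ (p : ℤ) = x ^ 2 + y ^ 2 ∧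
    Cong p 2 (S p) (2 * x - p / (2 * x)) ∧ Cong p 2 ((-1) ^ ((p - 1) / 4) * Tp p) (2 * x - p / (2 * x))

/-- (b) for the prime `p` -/
def StatementB (p : ℕ) : Prop := p % 4 = 3 → Cong p 1 (S p) 0 ∧ Cong p 1 (Tp p) 0

theorem fail5 : ¬ StatementA 5 := by
  intro h
  obtain ⟨x, y, hx, hp, h1, h2⟩ := h (by norm_num)
  have hx1 : x ≤ 2 := by push_cast at hp; nlinarith [sq_nonneg y]
  have hx2 : -2 ≤ x := by push_cast at hp; nlinarith [sq_nonneg y]
  interval_cases x
  · exact absurd hx (by decide)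
  · exact not_cong' (z := -2 + 5 / 2) (by norm_num) (by decide +kernel) h2
  · exact absurd hx (by decide)
  · exact not_cong' (z := 2 - 5 / 2) (by norm_num) (by decide +kernel) h2
  · exact absurd hx (by decide)

theorem fail13 : ¬ StatementA 13 := by
  intro h
  obtain ⟨x, y, hx, hp, h1, h2⟩ := h (by norm_num)
  have hx1 : x ≤ 3 := by push_cast at hp; nlinarith [sq_nonneg y]
  have hx2 : -3 ≤ x := by push_cast at hp; nlinarith [sq_nonneg y]
  interval_cases x
  · exact not_cong' (z := -6 + 13 / 6) (by norm_num) (by decide +kernel) h1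
  · exact absurd hx (by decide)
  · exact not_cong' (z := -2 + 13 / 2) (by norm_num) (by decide +kernel) h2
  · exact absurd hx (by decide)
  · exact not_cong' (z := 2 - 13 / 2) (by norm_num) (by decide +kernel) h2
  · exact absurd hx (by decide)
  · exact not_cong' (z := 6 - 13 / 6) (by norm_num) (by decide +kernel) h2

/-- (a) fails for `p = 5` and `p = 13`, so that it is false that (a) and (b) hold for every prime `p ≥ 5`. -/
theorem result :
    (¬ StatementA 5 ∧ ¬ StatementA 13) ∧ ¬ ∀ p : ℕ, p.Prime → 5 ≤ p → StatementA p ∧ StatementB p :=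
  ⟨⟨fail5, fail13⟩, fun h => fail5 (h 5 (by norm_num) (by norm_num)).1⟩

end Pool.Agent.Results.MP_cec948_nt.FailsAsStated
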